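import Mathlib

/-!
# The generalised Graham function `g_m(n)` for odd `m`: when does it equal `2 n`?

We prove the remaining (odd `m`) part of the conjectured characterisation.  The key identity is
`(a*b) * ((a+1)*(b+1)) = (a*(b+1)) * ((a+1)*b)`.
-/

namespace Pool.Agent.Results.MP_c9219e_nt.GrahamOdd

/-- An `m`-product sequence: a finite non-decreasing sequence of integers, whose product is the
`m`-th power of a natural number, and in which each integer occurs at most `m - 1` times. -/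
def IsMProductSeq (m : ℕ) (l : List ℤ) : Prop :=
  l.Pairwise (· ≤ ·) ∧ (∃ R : ℕ, l.prod = (R : ℤ) ^ m) ∧ ∀ x : ℤ, l.count x ≤ m - 1

/-- `s` is the last term of some `m`-product sequence whose first term is `n`. -/
def IsLastTerm (m n s : ℕ) : Prop :=
  ∃ l : List ℤ, IsMProductSeq m l ∧ l.head? = some (n : ℤ) ∧ l.getLast? = some (s : ℤ)

/-- The generalised Graham function: the smallest `s` such that some `m`-product sequence has
first term `n` and last term `s`. -/
noncomputable def g (m n : ℕ) : ℕ := sInf {s : ℕ | IsLastTerm m n s}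

theorem count_replicate_le (k : ℕ) (x y : ℤ) :
    (List.replicate k x).count y = if x = y then k else 0 := by
  rw [List.count_replicate]
  simp [beq_iff_eq]

/-- the set in the definition of `g` is never empty (for `m ≥ 2`), so `g` is a minimum. -/
theorem g_isLeast (m n : ℕ) (hm : 2 ≤ m) : IsLeast {s : ℕ | IsLastTerm m n s} (g m n) := by
  have hne : {s : ℕ | IsLastTerm m n s}.Nonempty := by
    rcases Nat.eq_zero_or_pos n with h0 | hpos
    · have hm0 : m ≠ 0 := by omega
      refine ⟨0, [0], ⟨by simp, ⟨0, by simp [hm0]⟩, ?_⟩, by simp [h0], by simp⟩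
      intro x
      rw [List.count_singleton]
      split_ifs <;> omega
    · refine ⟨n ^ (m - 1) * 2 ^ m, [(n : ℤ), ((n ^ (m - 1) * 2 ^ m : ℕ) : ℤ)],
        ⟨?_, ⟨n * 2, ?_⟩, ?_⟩, by simp, by simp⟩
      · simp only [List.pairwise_cons, List.mem_cons, List.not_mem_nil, or_false, forall_eq,
          false_implies, implies_true, List.Pairwise.nil, and_true]
        have h1 : n ≤ n ^ (m - 1) := Nat.le_self_pow (by omega) n
        have h2 : 1 ≤ 2 ^ m := Nat.one_le_two_pow
        have h3 : n ≤ n ^ (m - 1) * 2 ^ m := by nlinarith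
        exact_mod_cast h3
      · have : m = (m - 1) + 1 := by omega
        simp only [List.prod_cons, List.prod_nil, mul_one]
        push_cast
        rw [mul_pow]
        conv_rhs => rw [this, pow_succ (n : ℤ)]
        have h3 : (m - 1 + 1) = m := by omega
        rw [h3]
        ring
      · intro x
        have h1 : n ≤ n ^ (m - 1) := Nat.le_self_pow (by omega) n
        have h2 : 2 ≤ 2 ^ m := by
          calc 2 = 2 ^ 1 := by norm_num
            _ ≤ 2 ^ m := Nat.pow_le_pow_right (by norm_num) (by omega)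
        have h3 : n < n ^ (m - 1) * 2 ^ m := by nlinarith
        have h4 : (n : ℤ) ≠ ((n ^ (m - 1) * 2 ^ m : ℕ) : ℤ) := by
          have := h3.ne
          exact_mod_cast this
        have : List.Nodup [(n : ℤ), ((n ^ (m - 1) * 2 ^ m : ℕ) : ℤ)] := by
          simp only [List.nodup_cons, List.mem_cons, List.not_mem_nil, or_false, List.nodup_nil,
            and_true, not_false_eq_true]
          exact h4
        have := List.nodup_iff_count_le_one.mp this x
        omega
  exact ⟨Nat.sInf_mem hne, fun s hs => Nat.sInf_le hs⟩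

/-- general constructor: blocks `a^i b^j c^k d^l` with `a < b < c < d`. -/
theorem isLastTerm_blocks (m n : ℕ) (b c d : ℕ) (i j k l : ℕ) (R : ℕ)
    (hnb : n < b) (hbc : b < c) (hcd : c < d) (hi : 1 ≤ i) (him : i ≤ m - 1) (hj : j ≤ m - 1)
    (hk : k ≤ m - 1) (hl : 1 ≤ l) (hlm : l ≤ m - 1)
    (hprod : n ^ i * b ^ j * c ^ k * d ^ l = R ^ m) : IsLastTerm m n d := by
  refine ⟨List.replicate i (n : ℤ) ++ (List.replicate j (b : ℤ) ++ (List.replicate k (c : ℤ) ++
    List.replicate l (d : ℤ))), ⟨?_, ⟨R, ?_⟩, ?_⟩, ?_, ?_⟩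
  · have h1 : (n : ℤ) < b := by exact_mod_cast hnb
    have h2 : (b : ℤ) < c := by exact_mod_cast hbc
    have h3 : (c : ℤ) < d := by exact_mod_cast hcd
    simp only [List.pairwise_append, List.mem_replicate, List.mem_append,
      List.pairwise_replicate, le_refl, or_true, true_and]
    refine ⟨⟨?_, ?_⟩, ?_⟩
    · rintro x ⟨_, rfl⟩ y ⟨_, rfl⟩
      omega
    · rintro x ⟨_, rfl⟩ y (⟨_, rfl⟩ | ⟨_, rfl⟩) <;> omega
    · rintro x ⟨_, rfl⟩ y (⟨_, rfl⟩ | ⟨_, rfl⟩ | ⟨_, rfl⟩) <;> omega
  · simp only [List.prod_append, List.prod_replicate]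
    have : ((n ^ i * b ^ j * c ^ k * d ^ l : ℕ) : ℤ) = ((R ^ m : ℕ) : ℤ) := by rw [hprod]
    push_cast at this
    rw [← this]
    ring
  · intro x
    simp only [List.count_append, count_replicate_le]
    have h1 : (n : ℤ) < b := by exact_mod_cast hnb
    have h2 : (b : ℤ) < c := by exact_mod_cast hbc
    have h3 : (c : ℤ) < d := by exact_mod_cast hcd
    split_ifs <;> omega
  · obtain ⟨i', rfl⟩ : ∃ i', i = i' + 1 := ⟨i - 1, by omega⟩
    simp [List.replicate_succ]
  · obtain ⟨l', rfl⟩ : ∃ l', l = l' + 1 := ⟨l - 1, by omega⟩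
    rw [List.getLast?_append, List.getLast?_append, List.getLast?_append]
    simp [List.replicate_succ', List.getLast?_append]

/-- Composite `n = a b` with `a < b`, `a + b + 1 < a b`. -/
theorem lt_case (m a b : ℕ) (hm : 3 ≤ m) (hab : a < b) :
    IsLastTerm m (a * b) ((a + 1) * (b + 1)) ∨ a = 0 := by
  rcases Nat.eq_zero_or_pos a with h0 | ha
  · exact Or.inr h0
  left
  refine isLastTerm_blocks m (a * b) (a * (b + 1)) ((a + 1) * b) ((a + 1) * (b + 1))
    1 (m - 1) (m - 1) 1 (a * (b + 1) * ((a + 1) * b)) ?_ ?_ ?_ (by norm_num) (by omega) le_rfl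
    le_rfl (by norm_num) (by omega) ?_
  · nlinarith
  · nlinarith
  · nlinarith
  · obtain ⟨k, rfl⟩ : ∃ k, m = k + 1 := ⟨m - 1, by omega⟩
    simp only [Nat.add_sub_cancel, pow_one]
    rw [pow_succ, mul_pow (a * (b + 1)) ((a + 1) * b) k]
    generalize (a * (b + 1)) ^ k = u
    generalize ((a + 1) * b) ^ k = v
    ring

/-- Composite `n = a ^ 2`. -/
theorem eq_case (m a : ℕ) (hm : 3 ≤ m) (ha : 0 < a) :
    IsLastTerm m (a * a) ((a + 1) * (a + 1)) := by
  obtain ⟨k, rfl⟩ : ∃ k, m = k + 2 := ⟨m - 2, by omega⟩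
  refine ⟨List.replicate 1 ((a * a : ℕ) : ℤ) ++ (List.replicate k ((a * (a + 1) : ℕ) : ℤ) ++
    List.replicate 1 (((a + 1) * (a + 1) : ℕ) : ℤ)), ⟨?_, ⟨a * (a + 1), ?_⟩, ?_⟩, ?_, ?_⟩
  · have h1 : ((a * a : ℕ) : ℤ) < ((a * (a + 1) : ℕ) : ℤ) := by
      have : a * a < a * (a + 1) := by nlinarith
      exact_mod_cast this
    have h2 : ((a * (a + 1) : ℕ) : ℤ) < (((a + 1) * (a + 1) : ℕ) : ℤ) := by
      have : a * (a + 1) < (a + 1) * (a + 1) := by nlinarith
      exact_mod_cast this
    simp only [List.pairwise_append, List.mem_replicate, List.mem_append,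
      List.pairwise_replicate, le_refl, or_true, true_and]
    refine ⟨?_, ?_⟩
    · rintro x ⟨_, rfl⟩ y ⟨_, rfl⟩
      omega
    · rintro x ⟨_, rfl⟩ y (⟨_, rfl⟩ | ⟨_, rfl⟩) <;> omega
  · simp only [List.prod_append, List.prod_replicate]
    push_cast
    ring
  · intro x
    simp only [List.count_append, count_replicate_le]
    have h1 : ((a * a : ℕ) : ℤ) < ((a * (a + 1) : ℕ) : ℤ) := by
      have : a * a < a * (a + 1) := by nlinarith
      exact_mod_cast this
    have h2 : ((a * (a + 1) : ℕ) : ℤ) < (((a + 1) * (a + 1) : ℕ) : ℤ) := by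
      have : a * (a + 1) < (a + 1) * (a + 1) := by nlinarith
      exact_mod_cast this
    split_ifs <;> omega
  · simp [List.replicate_succ]
  · rw [List.getLast?_append, List.getLast?_append]
    simp

/-- `n = 6`, `m ≥ 5` odd: some `m`-product sequence starts at `6` and ends at `9`. -/
theorem six_case (m : ℕ) (hm : 5 ≤ m) (hodd : Odd m) : IsLastTerm m 6 9 := by
  obtain ⟨k, rfl⟩ := hodd
  obtain ⟨t, rfl⟩ : ∃ t, k = t + 1 := ⟨k - 1, by omega⟩
  refine isLastTerm_blocks (2 * (t + 1) + 1) 6 7 8 9 3 0 (2 * (t + 1)) t 24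
    (by norm_num) (by norm_num) (by norm_num) (by norm_num) (by omega) (by omega) (by omega)
    (by omega) (by omega) ?_
  have h6 : (6 : ℕ) = 2 * 3 := by norm_num
  have h8 : (8 : ℕ) = 2 ^ 3 := by norm_num
  have h9 : (9 : ℕ) = 3 ^ 2 := by norm_num
  have h24 : (24 : ℕ) = 2 ^ 3 * 3 := by norm_num
  rw [h6, h8, h9, h24]
  simp only [mul_pow, ← pow_mul, pow_zero, mul_one]
  have e1 : (2 : ℕ) ^ (3 * (2 * (t + 1) + 1)) = 2 ^ 3 * 2 ^ (3 * (2 * (t + 1))) := by
    rw [← pow_add]; congr 1; ring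
  have e2 : (3 : ℕ) ^ (2 * (t + 1) + 1) = 3 ^ 3 * 3 ^ (2 * t) := by
    rw [← pow_add]; congr 1; ring
  rw [e1, e2]
  ring

theorem one_case (m : ℕ) (hm : 3 ≤ m) : IsLastTerm m 1 1 := by
  refine ⟨[1], ⟨by simp, ⟨1, by simp⟩, ?_⟩, by simp, by simp⟩
  intro x
  rw [List.count_singleton]
  split_ifs <;> omega

theorem prod_formula (l : List ℤ) (h : ∀ x ∈ l, x = 4 ∨ x = 5 ∨ x = 6 ∨ x = 7 ∨ x = 8) :
    l.prod = 4 ^ l.count 4 * 5 ^ l.count 5 * 6 ^ l.count 6 * 7 ^ l.count 7 * 8 ^ l.count 8 := by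
  induction l with
  | nil => simp
  | cons a t ih =>
    have ih' := ih (fun x hx => h x (List.mem_cons_of_mem a hx))
    rcases h a List.mem_cons_self with rfl | rfl | rfl | rfl | rfl <;>
      · simp only [List.prod_cons, ih', List.count_cons]
        norm_num
        ring

theorem vals (a b c d : ℕ) :
    padicValNat 2 (2 ^ a * 3 ^ b * 5 ^ c * 7 ^ d) = a ∧
    padicValNat 3 (2 ^ a * 3 ^ b * 5 ^ c * 7 ^ d) = b := by
  have h2 : Fact (Nat.Prime 2) := ⟨by norm_num⟩
  have h3 : Fact (Nat.Prime 3) := ⟨by norm_num⟩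
  have h5 : Fact (Nat.Prime 5) := ⟨by norm_num⟩
  have h7 : Fact (Nat.Prime 7) := ⟨by norm_num⟩
  have p2 : (2 : ℕ) ^ a ≠ 0 := by positivity
  have p3 : (3 : ℕ) ^ b ≠ 0 := by positivity
  have p5 : (5 : ℕ) ^ c ≠ 0 := by positivity
  have p7 : (7 : ℕ) ^ d ≠ 0 := by positivity
  constructor
  · rw [padicValNat.mul (mul_ne_zero (mul_ne_zero p2 p3) p5) p7,
      padicValNat.mul (mul_ne_zero p2 p3) p5, padicValNat.mul p2 p3, padicValNat.prime_pow,
      padicValNat_prime_prime_pow b (by norm_num), padicValNat_prime_prime_pow c (by norm_num),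
      padicValNat_prime_prime_pow d (by norm_num)]
    ring
  · rw [padicValNat.mul (mul_ne_zero (mul_ne_zero p2 p3) p5) p7,
      padicValNat.mul (mul_ne_zero p2 p3) p5, padicValNat.mul p2 p3, padicValNat.prime_pow,
      padicValNat_prime_prime_pow a (by norm_num), padicValNat_prime_prime_pow c (by norm_num),
      padicValNat_prime_prime_pow d (by norm_num)]
    ring

theorem four_case : ¬ IsLastTerm 3 4 8 := by
  rintro ⟨l, ⟨hs, ⟨R, hR⟩, hc⟩, hh, hl⟩
  have hmem : ∀ x ∈ l, (4 : ℤ) ≤ x ∧ x ≤ 8 := by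
    intro x hx
    constructor
    · obtain ⟨t, rfl⟩ : ∃ t, l = (4 : ℤ) :: t := by
        cases l with
        | nil => simp at hh
        | cons a t => exact ⟨t, by simpa using hh⟩
      rcases List.mem_cons.mp hx with h | h
      · omega
      · exact (List.pairwise_cons.mp hs).1 x h
    · obtain ⟨t, rfl⟩ : ∃ t, l = t ++ [(8 : ℤ)] := by
        rw [List.getLast?_eq_some_iff] at hl
        obtain ⟨t, ht⟩ := hl
        exact ⟨t, by simpa using ht⟩
      rcases List.mem_append.mp hx with h | h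
      · exact (List.pairwise_append.mp hs).2.2 x h 8 (by simp)
      · simp at h
        omega
  have h4 : 1 ≤ l.count 4 := by
    have : (4 : ℤ) ∈ l := by
      have := List.mem_of_mem_head? (by rw [hh]; exact Option.mem_some_self _ : ((4 : ℕ) : ℤ) ∈ l.head?)
      simpa using this
    exact List.one_le_count_iff.mpr this
  have hP := prod_formula l (by
    intro x hx
    have := hmem x hx
    omega)
  rw [hR] at hP
  have hc4 := hc 4
  have hc6 := hc 6
  generalize l.count 4 = c4 at *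
  generalize l.count 5 = c5 at *
  generalize l.count 6 = c6 at *
  generalize l.count 7 = c7 at *
  generalize l.count 8 = c8 at *
  have hP' : R ^ 3 = 2 ^ (2 * c4 + c6 + 3 * c8) * 3 ^ c6 * 5 ^ c5 * 7 ^ c7 := by
    have : ((R ^ 3 : ℕ) : ℤ) =
        ((2 ^ (2 * c4 + c6 + 3 * c8) * 3 ^ c6 * 5 ^ c5 * 7 ^ c7 : ℕ) : ℤ) := by
      push_cast
      rw [hP]
      have e4 : (4 : ℤ) = 2 ^ 2 := by norm_num
      have e6 : (6 : ℤ) = 2 * 3 := by norm_num
      have e8 : (8 : ℤ) = 2 ^ 3 := by norm_num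
      rw [e4, e6, e8, mul_pow, ← pow_mul, ← pow_mul, pow_add, pow_add]
      ring
    exact_mod_cast this
  have hv := vals (2 * c4 + c6 + 3 * c8) c6 c5 c7
  have v2 := congrArg (padicValNat 2) hP'
  have v3 := congrArg (padicValNat 3) hP'
  have h2 : Fact (Nat.Prime 2) := ⟨by norm_num⟩
  have h3 : Fact (Nat.Prime 3) := ⟨by norm_num⟩
  rw [hv.1, padicValNat.pow] at v2
  rw [hv.2, padicValNat.pow] at v3
  omega

/-- **Q1** (full answer, affirmative): for odd `m ≥ 3` and every natural `n`, if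
`g_m(n) = 2n` then `n = 0`, or `n` is prime, or `n = 4` and `m ≥ 5`, or `(m, n) = (3, 6)`. -/
theorem result : ∀ m n : ℕ, 3 ≤ m → Odd m → g m n = 2 * n →
    (n = 0 ∨ n.Prime ∨ (n = 4 ∧ 5 ≤ m) ∨ (m = 3 ∧ n = 6)) := by
  intro m n hm hodd hg
  have hleast := g_isLeast m n (by omega)
  rw [hg] at hleast
  obtain ⟨hmem, hmin⟩ := hleast
  by_contra hcon
  push Not at hcon
  obtain ⟨hn0, hnp, hn4, hn6⟩ := hcon
  -- n = 1
  by_cases h1 : n = 1
  · subst h1
    have := hmin (one_case m hm)
    omega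
  -- composite
  have hn2 : 2 ≤ n := by omega
  obtain ⟨a, b, ha, hb, hab, hle⟩ : ∃ a b : ℕ, 2 ≤ a ∧ 2 ≤ b ∧ n = a * b ∧ a ≤ b := by
    obtain ⟨c, hc1, hc2, hc3⟩ := Nat.exists_dvd_of_not_prime2 hn2 hnp
    obtain ⟨d, hd⟩ := hc1
    have hd2 : 2 ≤ d := by
      by_contra hlt
      have : d = 0 ∨ d = 1 := by omega
      rcases this with h | h <;> subst h <;> omega
    rcases le_total c d with h | h
    · exact ⟨c, d, hc2, hd2, hd, h⟩
    · exact ⟨d, c, hd2, hc2, by rw [hd, mul_comm], h⟩
  by_cases hbig : a + b + 1 < a * b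
  · have hlt : (a + 1) * (b + 1) < 2 * (a * b) := by nlinarith
    rcases Nat.lt_or_ge a b with h | h
    · rcases lt_case m a b hm h with h' | h'
      · have := hmin (hab ▸ h')
        rw [hab] at this
        omega
      · omega
    · have hEq : a = b := le_antisymm hle h
      subst hEq
      have h' := eq_case m a hm (by omega)
      have := hmin (hab ▸ h')
      rw [hab] at this
      omega
  · -- small cases: `a = 2`, `b ∈ {2, 3}`
    have ha2 : a = 2 := by
      by_contra hne
      have ha3 : 3 ≤ a := by omega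
      apply hbig
      nlinarith
    subst ha2
    have hb3 : b ≤ 3 := by omega
    have hbb : b = 2 ∨ b = 3 := by omega
    rcases hbb with h | h
    · subst h
      have hn : n = 4 := by omega
      subst hn
      have hm3 : m = 3 := by
        have := hn4 rfl
        obtain ⟨k, hk⟩ := hodd
        omega
      subst hm3
      exact four_case hmem
    · subst h
      have hn : n = 6 := by omega
      subst hn
      have hm5 : 5 ≤ m := by
        have : m ≠ 3 := fun h => hn6 h rfl
        obtain ⟨k, hk⟩ := hodd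
        omega
      have := hmin (six_case m hm5 hodd)
      omega

end Pool.Agent.Results.MP_c9219e_nt.GrahamOdd
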